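import Pool.Agent.FTU.Stmts

/-!
# FTU, row POB: polynomial bound for the values of a polynomial
-/

set_option autoImplicit false

open MeasureTheory Complex ProbabilityTheory MvPolynomial

noncomputable section

namespace Pool.Agent.FTU.H34

open Pool.Agent.FTU

theorem ja_nonneg (J : Fin 3 → ℕ → ℕ → ℕ → ℝ) (v : Var) : 0 ≤ ja J v := by
  cases v with
  | eta => exact le_rfl
  | z => exact le_rfl
  | zb => exact le_rfl
  | jet c p q r => exact abs_nonneg _

theorem pob : PobStmt := by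
  intro P
  refine ⟨∑ d ∈ P.support, ‖P.coeff d‖, P.totalDegree,
    Finset.sum_nonneg fun d _ => norm_nonneg _, ?_⟩
  intro et J ze h0 h1
  obtain ⟨S, hS⟩ : ∃ S : ℝ, S = ∑ v ∈ P.vars, ja J v := ⟨_, rfl⟩
  have hS0 : 0 ≤ S := by
    rw [hS]
    exact Finset.sum_nonneg fun v _ => ja_nonneg J v
  rw [← hS, mul_assoc, ← mul_pow]
  obtain ⟨B, hB⟩ : ∃ B : ℝ, B = (1 + ‖ze‖) * (1 + S) := ⟨_, rfl⟩
  rw [← hB]
  have hz : 0 ≤ ‖ze‖ := norm_nonneg ze
  have hzS : 0 ≤ ‖ze‖ * S := mul_nonneg hz hS0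
  have hB1 : 1 ≤ B := by
    rw [hB]
    nlinarith
  have hx : ∀ i ∈ P.vars, ‖pt et J ze i‖ ≤ B := by
    intro i hi
    cases i with
    | eta =>
      change ‖(et : ℂ)‖ ≤ B
      rw [Complex.norm_real, Real.norm_eq_abs, abs_of_nonneg h0]
      exact h1.trans hB1
    | z =>
      change ‖ze‖ ≤ B
      rw [hB]
      nlinarith
    | zb =>
      change ‖(starRingEnd ℂ) ze‖ ≤ B
      rw [RCLike.norm_conj, hB]
      nlinarith
    | jet c p q r =>
      change ‖((J c p q r : ℝ) : ℂ)‖ ≤ B
      rw [Complex.norm_real, Real.norm_eq_abs]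
      have h2 : ja J (Var.jet c p q r) ≤ S := by
        rw [hS]
        exact Finset.single_le_sum (fun v _ => ja_nonneg J v) hi
      have h3 : |J c p q r| ≤ S := h2
      rw [hB]
      nlinarith
  unfold ev
  rw [MvPolynomial.eval_eq, Finset.sum_mul]
  refine (norm_sum_le _ _).trans (Finset.sum_le_sum ?_)
  intro d hd
  rw [norm_mul]
  apply mul_le_mul_of_nonneg_left _ (norm_nonneg _)
  rw [norm_prod]
  calc ∏ i ∈ d.support, ‖pt et J ze i ^ d i‖ ≤ ∏ i ∈ d.support, B ^ d i := by
        apply Finset.prod_le_prod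
        · intro i _
          exact norm_nonneg _
        · intro i hi
          rw [norm_pow]
          apply pow_le_pow_left₀ (norm_nonneg _)
          apply hx i
          rw [MvPolynomial.mem_vars]
          exact ⟨d, hd, hi⟩
    _ = B ^ (∑ i ∈ d.support, d i) := Finset.prod_pow_eq_pow_sum _ _ _
    _ ≤ B ^ P.totalDegree := by
        apply pow_le_pow_right₀ hB1
        exact MvPolynomial.le_totalDegree hd

end Pool.Agent.FTU.H34
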